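import Pool.Agent.W810.KP.Defs
import Pool.Agent.H31R3.Kes.Decay

/-! # KP-PAR: choice of the parameters -/

namespace Pool.Agent.W801.KP

open H974 H12S H973N Finset MeasureTheory Filter Pool.Agent.W810.KP

/-- decay of the arm probability, explicit form -/
theorem arm_exp {q : ℝ} (h0 : 0 ≤ q) (h1 : q ≤ 1) {N : ℕ} (hN : 2 ≤ N)
    (he : eps (1 - q) N ≤ 1/100) (b : ℕ) (hb : 16 * N ≤ b) :
    arm q (b / 4) ≤ Real.exp (-((b:ℝ) / (16 * N))) := by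
  set r := (b / 4) / (2 * N) with hr
  have hN0 : 0 < 2 * N := by omega
  have hr1 : 1 ≤ r := by
    rw [hr, Nat.le_div_iff_mul_le hN0]
    omega
  set j := Nat.log 2 r with hj
  have hj1 : 2 ^ j ≤ r := Nat.pow_log_le_self 2 (by omega)
  have hj2 : r < 2 ^ (j + 1) := Nat.lt_pow_succ_log_self (by norm_num) r
  have h2 : 2 * (2 ^ j * N) ≤ b / 4 := by
    have h3 : 2 ^ j * (2 * N) ≤ b / 4 := by
      rw [← Nat.le_div_iff_mul_le hN0]
      exact hj1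
    calc 2 * (2 ^ j * N) = 2 ^ j * (2 * N) := by ring
      _ ≤ b / 4 := h3
  have h4 : b < 16 * N * 2 ^ j := by
    have h5 : b / 4 < (r + 1) * (2 * N) := by
      exact (Nat.div_lt_iff_lt_mul hN0).1 (Nat.lt_succ_self _)
    have h6 : (r + 1) * (2 * N) ≤ 2 ^ (j + 1) * (2 * N) := Nat.mul_le_mul_right _ hj2
    have h7 : 2 ^ (j + 1) * (2 * N) = 4 * (N * 2 ^ j) := by rw [pow_succ]; ring
    have h8 : 16 * N * 2 ^ j = 4 * (4 * (N * 2 ^ j)) := by ring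
    omega
  have h5 := (arm_anti h0 h1 h2).trans (H31K.arm_decay_far h0 h1 hN he j)
  refine h5.trans ?_
  have h6 : ((1:ℝ)/4) ^ (2 ^ j) ≤ Real.exp (-1) ^ (2 ^ j) := by
    apply pow_le_pow_left₀ (by norm_num)
    rw [Real.exp_neg, one_div]
    apply inv_anti₀ (Real.exp_pos 1)
    have := Real.exp_one_lt_d9
    linarith
  refine h6.trans ?_
  rw [← Real.exp_nat_mul]
  apply Real.exp_le_exp.2
  have h7 : (b:ℝ) / (16 * N) ≤ (2:ℝ) ^ j := by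
    have hN1 : (0:ℝ) < N := by
      have : 0 < N := by omega
      exact_mod_cast this
    rw [div_le_iff₀ (by positivity)]
    have : (b:ℝ) ≤ ((16 * N * 2 ^ j : ℕ) : ℝ) := by exact_mod_cast h4.le
    push_cast at this
    linarith
  push_cast
  linarith

theorem main_aux (h : H31K.Inp) (ht : S_tri) (δ : ℝ) (hδ : 0 < δ) (hδ1 : δ ≤ 1 / 100) :
    ∃ C s₀ : ℝ, 0 < C ∧ ∀ s : ℝ, s₀ ≤ s → 4 ≤ s → ∀ M : ℕ, s ^ 2 ≤ (M:ℝ) →
      ∑ e ∈ boxE (M / 4 * 2), ∑ g ∈ (boxE M).erase e, ∑ h ∈ ((boxE M).erase e).erase g,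
        PQ (1/2 - s⁻¹) (boxE M) (T3 e g h) ≤ C * (M:ℝ) ^ 2 * s ^ (1 / 3 + 24 * δ) := by
  obtain ⟨κ, B, hκ, hB, hnear⟩ := h.near δ hδ
  obtain ⟨N0, hfar⟩ := h.far δ hδ
  obtain ⟨C0, hC0, htri⟩ := ht κ hκ
  -- logarithm against power
  have hlog : ∀ᶠ b : ℝ in atTop, ‖Real.log b‖ ≤ (1 / 192) * ‖b ^ (δ / 2)‖ :=
    (isLittleO_log_rpow_atTop (half_pos hδ)).def (by norm_num)
  obtain ⟨b0, hb0⟩ := eventually_atTop.1 hlog
  have ev : ∀ (x : ℝ), 0 < x → ∀ c : ℝ, ∀ᶠ s : ℝ in atTop, c ≤ s ^ x := fun x hx c =>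
    (tendsto_rpow_atTop hx).eventually_ge_atTop c
  have evs : ∀ᶠ s : ℝ in atTop, 1 / κ ≤ s ^ (δ / 6) ∧ 1001 ≤ s ^ (4 / 3 - 2 * δ) ∧
      (N0 : ℝ) + 2 ≤ s ^ (4 / 3 + 2 * δ) ∧ 64 ≤ s ^ δ ∧ 64 ≤ s ^ (2 / 3 - 3 * δ) ∧
      b0 ≤ s ^ (4 / 3 + 3 * δ) := by
    filter_upwards [ev (δ / 6) (by linarith) (1 / κ), ev (4 / 3 - 2 * δ) (by linarith) 1001,
      ev (4 / 3 + 2 * δ) (by linarith) ((N0 : ℝ) + 2), ev δ hδ 64,
      ev (2 / 3 - 3 * δ) (by linarith) 64, ev (4 / 3 + 3 * δ) (by linarith) b0] with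
      s h1 h2 h3 h4 h5 h6
    exact ⟨h1, h2, h3, h4, h5, h6⟩
  obtain ⟨s₀, hs₀⟩ := eventually_atTop.1 evs
  refine ⟨C0 * (max B 1) ^ 3 * 256, s₀, by positivity, fun s hs hs4 M hM => ?_⟩
  obtain ⟨c2, c3, c4, c5, c6, c7⟩ := hs₀ s hs
  have hs0 : 0 < s := by linarith
  have hs1 : 1 ≤ s := by linarith
  have hinv : s⁻¹ ≤ 1 / 4 := by
    rw [one_div]; exact inv_anti₀ (by norm_num) hs4
  have hinv0 : 0 < s⁻¹ := inv_pos.2 hs0
  have hmono : ∀ x y : ℝ, x ≤ y → s ^ x ≤ s ^ y := fun x y hxy =>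
    Real.rpow_le_rpow_of_exponent_le hs1 hxy
  set q : ℝ := 1/2 - s⁻¹ with hq
  have hq0 : 0 ≤ q := by rw [hq]; linarith
  have hq1 : q ≤ 1 := by rw [hq]; linarith
  -- the scales
  set n : ℕ := ⌊s ^ (4 / 3 - 2 * δ)⌋₊ with hn
  set N : ℕ := ⌈s ^ (4 / 3 + 2 * δ)⌉₊ with hN
  set Λ : ℕ := ⌈s ^ (4 / 3 + 3 * δ)⌉₊ with hΛ
  have hnle : (n:ℝ) ≤ s ^ (4 / 3 - 2 * δ) := Nat.floor_le (by positivity)
  have hn1000 : 1000 ≤ n := Nat.le_floor (by push_cast; linarith)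
  have hnge : s ^ (4 / 3 - 2 * δ) / 2 ≤ n := by
    have h1 := Nat.lt_floor_add_one (s ^ (4 / 3 - 2 * δ))
    have h2 : (1000:ℝ) ≤ n := by exact_mod_cast hn1000
    rw [← hn] at h1
    linarith
  have hn0 : (0:ℝ) < n := by
    have h2 : (1000:ℝ) ≤ n := by exact_mod_cast hn1000
    linarith
  have hNge : s ^ (4 / 3 + 2 * δ) ≤ N := Nat.le_ceil _
  have hNle : (N:ℝ) ≤ 2 * s ^ (4 / 3 + 2 * δ) := by
    have h1 := Nat.ceil_lt_add_one (a := s ^ (4 / 3 + 2 * δ)) (by positivity)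
    have h2 : 1 ≤ s ^ (4 / 3 + 2 * δ) := Real.one_le_rpow hs1 (by linarith)
    rw [← hN] at h1
    linarith
  have hN0' : (0:ℝ) < N := lt_of_lt_of_le (by positivity) hNge
  have hN0N : N0 ≤ N := by
    have : (N0:ℝ) ≤ N := by linarith
    exact_mod_cast this
  have hN2 : 2 ≤ N := by
    have : (2:ℝ) ≤ N := by
      have := Nat.cast_nonneg (α := ℝ) N0
      linarith
    exact_mod_cast this
  have hΛge : s ^ (4 / 3 + 3 * δ) ≤ Λ := Nat.le_ceil _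
  have hΛle : (Λ:ℝ) ≤ 2 * s ^ (4 / 3 + 3 * δ) := by
    have h1 := Nat.ceil_lt_add_one (a := s ^ (4 / 3 + 3 * δ)) (by positivity)
    have h2 : 1 ≤ s ^ (4 / 3 + 3 * δ) := Real.one_le_rpow hs1 (by linarith)
    rw [← hΛ] at h1
    linarith
  -- the window
  have hwin : |q - 1/2| ≤ κ * (n:ℝ) ^ (-(3/4) - δ) := by
    have e1 : |q - 1/2| = s⁻¹ := by
      rw [hq, show (1/2 - s⁻¹ - 1/2 : ℝ) = -s⁻¹ by ring, abs_neg, abs_of_pos hinv0]
    rw [e1]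
    have h1 : (s ^ (4 / 3 - 2 * δ)) ^ (-(3/4) - δ) ≤ (n:ℝ) ^ (-(3/4) - δ) :=
      Real.rpow_le_rpow_of_nonpos hn0 hnle (by linarith)
    have h2 : s ^ (-1 + δ / 6) ≤ (s ^ (4 / 3 - 2 * δ)) ^ (-(3/4) - δ) := by
      rw [← Real.rpow_mul hs0.le]
      apply hmono
      nlinarith
    have h3 : s⁻¹ ≤ κ * s ^ (-1 + δ / 6) := by
      rw [Real.rpow_add hs0, Real.rpow_neg_one]
      have h4 : 1 ≤ κ * s ^ (δ / 6) := by
        rw [div_le_iff₀ hκ] at c2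
        linarith
      calc s⁻¹ = 1 * s⁻¹ := by ring
        _ ≤ (κ * s ^ (δ / 6)) * s⁻¹ := mul_le_mul_of_nonneg_right h4 hinv0.le
        _ = κ * (s⁻¹ * s ^ (δ / 6)) := by ring
    exact h3.trans (mul_le_mul_of_nonneg_left (h2.trans h1) hκ.le)
  obtain ⟨hW, ha4⟩ := hnear n (by omega) q hwin
  -- the far field
  have hfarN : eps (1 - q) N ≤ 1/100 := by
    have e1 : 1 - q = 1/2 + s⁻¹ := by rw [hq]; ring
    rw [e1]
    refine hfar N hN0N _ ?_ (by linarith)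
    have h1 : (N:ℝ) ^ (-(3/4) + δ) ≤ (s ^ (4 / 3 + 2 * δ)) ^ (-(3/4) + δ) :=
      Real.rpow_le_rpow_of_nonpos (by positivity) hNge (by linarith)
    have h2 : (s ^ (4 / 3 + 2 * δ)) ^ (-(3/4) + δ) ≤ s ^ (-1 : ℝ) := by
      rw [← Real.rpow_mul hs0.le]
      apply hmono
      nlinarith
    rw [Real.rpow_neg_one] at h2
    linarith
  -- Λ
  have hΛN : ∀ b : ℕ, Λ ≤ b → arm q (b / 4) ≤ ((b:ℝ) ^ 6)⁻¹ := by
    intro b hb
    have hbΛ : s ^ (4 / 3 + 3 * δ) ≤ b := hΛge.trans (by exact_mod_cast hb)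
    have hb0' : 0 < (b:ℝ) := lt_of_lt_of_le (by positivity) hbΛ
    have e1 : s ^ (4 / 3 + 3 * δ) = s ^ (4 / 3 + 2 * δ) * s ^ δ := by
      rw [← Real.rpow_add hs0]; congr 1; ring
    have h16 : 16 * N ≤ b := by
      have h1 : 16 * (N:ℝ) ≤ b := by
        have h2 : 64 * s ^ (4 / 3 + 2 * δ) ≤ s ^ (4 / 3 + 3 * δ) := by
          rw [e1, mul_comm]
          exact mul_le_mul_of_nonneg_left c5 (by positivity)
        have h3 : 0 ≤ s ^ (4 / 3 + 2 * δ) := by positivity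
        linarith
      exact_mod_cast h1
    refine (arm_exp hq0 hq1 hN2 hfarN b h16).trans ?_
    have hl := hb0 b (c7.trans hbΛ)
    have hb1 : 1 ≤ (b:ℝ) := (Real.one_le_rpow hs1 (by linarith)).trans hbΛ
    rw [Real.norm_of_nonneg (Real.log_nonneg hb1), Real.norm_of_nonneg (by positivity)] at hl
    -- b = b^(δ/2) b^(1-δ/2) ≥ b^(δ/2) s^(4/3+2δ)
    have h1 : s ^ (4 / 3 + 2 * δ) ≤ (b:ℝ) ^ (1 - δ / 2) := by
      calc s ^ (4 / 3 + 2 * δ) ≤ s ^ ((4 / 3 + 3 * δ) * (1 - δ / 2)) := by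
            apply hmono; nlinarith
        _ = (s ^ (4 / 3 + 3 * δ)) ^ (1 - δ / 2) := by rw [Real.rpow_mul hs0.le]
        _ ≤ (b:ℝ) ^ (1 - δ / 2) := Real.rpow_le_rpow (by positivity) hbΛ (by linarith)
    have h2 : (b:ℝ) = (b:ℝ) ^ (δ / 2) * (b:ℝ) ^ (1 - δ / 2) := by
      rw [← Real.rpow_add hb0']
      rw [show δ / 2 + (1 - δ / 2) = 1 by ring, Real.rpow_one]
    have h3 : (b:ℝ) ^ (δ / 2) / 32 ≤ (b:ℝ) / (16 * N) := by
      rw [div_le_div_iff₀ (by norm_num) (by positivity)]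
      calc (b:ℝ) ^ (δ / 2) * (16 * N) ≤ (b:ℝ) ^ (δ / 2) * (32 * (b:ℝ) ^ (1 - δ / 2)) := by
            apply mul_le_mul_of_nonneg_left _ (by positivity)
            linarith
        _ = ((b:ℝ) ^ (δ / 2) * (b:ℝ) ^ (1 - δ / 2)) * 32 := by ring
        _ = b * 32 := by rw [← h2]
    have h4 : 6 * Real.log b ≤ (b:ℝ) / (16 * N) := by linarith
    have h5 : ((b:ℝ) ^ 6)⁻¹ = Real.exp (-(6 * Real.log b)) := by
      rw [Real.exp_neg]
      congr 1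
      have : (6:ℝ) * Real.log b = Real.log ((b:ℝ) ^ 6) := by rw [Real.log_pow]; norm_num
      rw [this, Real.exp_log (by positivity)]
    rw [h5]
    exact Real.exp_le_exp.2 (by linarith)
  have hnΛ : n ≤ Λ := by
    have : (n:ℝ) ≤ Λ := hnle.trans ((hmono _ _ (by linarith)).trans hΛge)
    exact_mod_cast this
  have hΛM : 16 * Λ ≤ M := by
    have h1 : 16 * (Λ:ℝ) ≤ M := by
      have h2 : 64 * s ^ (4 / 3 + 3 * δ) ≤ s ^ (2:ℕ) := by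
        have e : s ^ (2:ℕ) = s ^ (2 / 3 - 3 * δ) * s ^ (4 / 3 + 3 * δ) := by
          rw [← Real.rpow_add hs0, ← Real.rpow_natCast]
          congr 1
          push_cast
          ring
        rw [e]
        exact mul_le_mul_of_nonneg_right c6 (by positivity)
      have h3 : 0 ≤ s ^ (4 / 3 + 3 * δ) := by positivity
      linarith
    exact_mod_cast h1
  have hA4 : ∀ k : ℕ, 1 ≤ k → k ≤ n → a4 q k ≤ (max B 1) * (k:ℝ) ^ (-(5/4) + δ) := by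
    intro k hk1 hk2
    refine (ha4 k hk1 hk2).trans ?_
    exact mul_le_mul_of_nonneg_right (le_max_left _ _) (by positivity)
  have key := htri q n hW (max B 1) δ (le_max_right _ _) hδ (by linarith) hA4 Λ M hn1000 hnΛ hΛM
    hΛN
  refine key.trans ?_
  -- the exponents
  have f1 : (n:ℝ) ^ (1/4 + 3 * δ) ≤ s ^ (1 / 3 + 4 * δ) := by
    calc (n:ℝ) ^ (1/4 + 3 * δ) ≤ (s ^ (4 / 3 - 2 * δ)) ^ (1/4 + 3 * δ) :=
          Real.rpow_le_rpow hn0.le hnle (by linarith)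
      _ = s ^ ((4 / 3 - 2 * δ) * (1/4 + 3 * δ)) := by rw [Real.rpow_mul hs0.le]
      _ ≤ s ^ (1 / 3 + 4 * δ) := by apply hmono; nlinarith
  have f2 : (Λ:ℝ) / n ≤ 4 * s ^ (5 * δ) := by
    rw [div_le_iff₀ hn0]
    have e : s ^ (4 / 3 + 3 * δ) = s ^ (5 * δ) * s ^ (4 / 3 - 2 * δ) := by
      rw [← Real.rpow_add hs0]; congr 1; ring
    calc (Λ:ℝ) ≤ 2 * s ^ (4 / 3 + 3 * δ) := hΛle
      _ = 4 * s ^ (5 * δ) * (s ^ (4 / 3 - 2 * δ) / 2) := by rw [e]; ring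
      _ ≤ 4 * s ^ (5 * δ) * n := mul_le_mul_of_nonneg_left hnge (by positivity)
  have f3 : ((Λ:ℝ) / n) ^ 4 ≤ 256 * s ^ (20 * δ) := by
    calc ((Λ:ℝ) / n) ^ 4 ≤ (4 * s ^ (5 * δ)) ^ 4 := pow_le_pow_left₀ (by positivity) f2 4
      _ = 256 * s ^ (20 * δ) := by
          rw [mul_pow, ← Real.rpow_natCast (s ^ (5 * δ)), ← Real.rpow_mul hs0.le]
          norm_num
          congr 1
          ring
  have f4 : (n:ℝ) ^ (1/4 + 3 * δ) * ((Λ:ℝ) / n) ^ 4 ≤ 256 * s ^ (1 / 3 + 24 * δ) := by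
    calc (n:ℝ) ^ (1/4 + 3 * δ) * ((Λ:ℝ) / n) ^ 4 ≤ s ^ (1 / 3 + 4 * δ) * (256 * s ^ (20 * δ)) :=
          mul_le_mul f1 f3 (by positivity) (by positivity)
      _ = 256 * (s ^ (1 / 3 + 4 * δ) * s ^ (20 * δ)) := by ring
      _ = 256 * s ^ (1 / 3 + 24 * δ) := by
          rw [← Real.rpow_add hs0]; congr 2; ring
  calc C0 * (M:ℝ) ^ 2 * ((max B 1) ^ 3 * (n:ℝ) ^ (1/4 + 3 * δ) * ((Λ:ℝ) / n) ^ 4)
      = C0 * (max B 1) ^ 3 * (M:ℝ) ^ 2 * ((n:ℝ) ^ (1/4 + 3 * δ) * ((Λ:ℝ) / n) ^ 4) := by ring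
    _ ≤ C0 * (max B 1) ^ 3 * (M:ℝ) ^ 2 * (256 * s ^ (1 / 3 + 24 * δ)) :=
        mul_le_mul_of_nonneg_left f4 (by positivity)
    _ = _ := by ring

/-- KP-PAR -/
theorem main (h : H31K.Inp) (ht : S_tri) : S_par := by
  intro ε hε
  obtain ⟨C, s₀, hC, hmain⟩ := main_aux h ht (min ε 1 / 100)
    (by have : 0 < min ε 1 := lt_min hε one_pos
        positivity)
    (by have := min_le_right ε 1
        linarith)
  refine ⟨C, min (1 / 4) (1 / max s₀ 1), hC, ?_, min_le_left _ _, ?_⟩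
  · have : 0 < max s₀ 1 := lt_max_of_lt_right one_pos
    positivity
  intro t ht0 htτ M hM
  have hpos : 0 < max s₀ 1 := lt_max_of_lt_right one_pos
  have h1 : t < 1 / 4 := htτ.trans_le (min_le_left _ _)
  have h2 : t < 1 / max s₀ 1 := htτ.trans_le (min_le_right _ _)
  have h3 : s₀ ≤ t⁻¹ := by
    have h4 : max s₀ 1 ≤ t⁻¹ := by
      rw [le_inv_comm₀ hpos ht0, ← one_div]
      exact h2.le
    exact (le_max_left _ _).trans h4
  have h4 : 4 ≤ t⁻¹ := by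
    rw [le_inv_comm₀ (by norm_num) ht0]
    norm_num
    linarith
  have key := hmain t⁻¹ h3 h4 M hM
  rw [inv_inv] at key
  refine key.trans ?_
  apply mul_le_mul_of_nonneg_left _ (by positivity)
  have ht1 : t ≤ 1 := by linarith
  rw [Real.inv_rpow ht0.le, ← Real.rpow_neg ht0.le]
  apply Real.rpow_le_rpow_of_exponent_ge ht0 ht1
  have h5 := min_le_left ε 1
  have h6 : 0 < min ε 1 := lt_min hε one_pos
  linarith

end Pool.Agent.W801.KP
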